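import Pool.Agent.Helper89.FV.Iface
import Pool.Agent.Helper60.FV.OA1
import Pool.Agent.Helper53.FV.OA2
import Pool.Agent.Helper26.FV.DF

/-!
# Ultrapower calculus and commutators
-/

namespace Pool.Agent.Helper89.FV

open Pool.Agent.Helper96.Fc

theorem Null.add {N : Set ZFSet.{0}} {U : ZFSet.{0}} (hU : FreeUltra N U) {s t : ℕ → ℝ}
    (hs : Null U s) (ht : Null U t) : Null U (fun n => s n + t n) := by
  intro ε hε
  obtain ⟨z, hz, h1⟩ := hs (ε / 2) (by positivity)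
  obtain ⟨w, hw, h2⟩ := ht (ε / 2) (by positivity)
  refine ⟨z ∩ w, hU.inter z hz w hw, fun n hn => ?_⟩
  rw [ZFSet.mem_inter] at hn
  have h3 := h1 n hn.1
  have h4 := h2 n hn.2
  have h5 := abs_add_le (s n) (t n)
  show |s n + t n| < ε
  linarith

theorem Null.of_le {U : ZFSet.{0}} {s t : ℕ → ℝ} {K : ℝ}
    (hs : Null U s) (h : ∀ n, |t n| ≤ K * |s n|) : Null U t := by
  intro ε hε
  have hK : (0 : ℝ) < |K| + 1 := by positivity
  obtain ⟨z, hz, h1⟩ := hs (ε / (|K| + 1)) (by positivity)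
  refine ⟨z, hz, fun n hn => ?_⟩
  have h2 := h1 n hn
  have h3 := h n
  have h4 : K * |s n| ≤ (|K| + 1) * |s n| := by
    apply mul_le_mul_of_nonneg_right _ (abs_nonneg _)
    linarith [le_abs_self K]
  have h5 : (|K| + 1) * |s n| < ε := by
    rw [lt_div_iff₀ hK] at h2
    linarith
  linarith

theorem Null.zero {N : Set ZFSet.{0}} {U : ZFSet.{0}} (hU : FreeUltra N U) {s : ℕ → ℝ}
    (hs : ∀ n, s n = 0) : Null U s := by
  intro ε hε
  have hne : ∃ z, z ∈ U := by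
    by_contra hcon
    push Not at hcon
    rcases hU.ultra U hU.mem (fun z hz => absurd hz (hcon z)) with h | h
    · exact hcon _ h
    · exact hcon _ h
  obtain ⟨z, hz⟩ := hne
  refine ⟨z, hz, fun n _ => ?_⟩
  rw [hs n]
  simpa using hε

theorem Eqv.of_eq {N : Set ZFSet.{0}} {U : ZFSet.{0}} (hU : FreeUltra N U) {a b : ℕ → Alg}
    (h : ∀ n, a n = b n) : Eqv U a b := by
  refine Null.zero hU fun n => ?_
  rw [h n, sub_self, nsq_zero]

theorem Eqv.refl {N : Set ZFSet.{0}} {U : ZFSet.{0}} (hU : FreeUltra N U) (a : ℕ → Alg) :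
    Eqv U a a := Eqv.of_eq hU fun _ => rfl

theorem Eqv.symm {U : ZFSet.{0}} {a b : ℕ → Alg} (h : Eqv U a b) : Eqv U b a := by
  intro ε hε
  obtain ⟨z, hz, h1⟩ := h ε hε
  refine ⟨z, hz, fun n hn => ?_⟩
  have h2 := h1 n hn
  have h3 : nsq (b n - a n) = nsq (a n - b n) := by
    rw [← nsq_neg, neg_sub]
  show |nsq (b n - a n)| < ε
  rw [h3]
  exact h2

theorem Eqv.trans {N : Set ZFSet.{0}} {U : ZFSet.{0}} (hU : FreeUltra N U) {a b c : ℕ → Alg}
    (h : Eqv U a b) (h' : Eqv U b c) : Eqv U a c := by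
  refine Null.of_le (K := 2) (Null.add hU h h') fun n => ?_
  have h1 := nsq_add_le (a n - b n) (b n - c n)
  have h2 : a n - b n + (b n - c n) = a n - c n := by abel
  rw [h2] at h1
  rw [abs_of_nonneg (nsq_nonneg _),
    abs_of_nonneg (add_nonneg (nsq_nonneg (a n - b n)) (nsq_nonneg (b n - c n)))]
  linarith

theorem Eqv.adj {U : ZFSet.{0}} {a b : ℕ → Alg} (h : Eqv U a b) :
    Eqv U (fun n => adj (a n)) (fun n => adj (b n)) := by
  intro ε hε
  obtain ⟨z, hz, h1⟩ := h ε hε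
  refine ⟨z, hz, fun n hn => ?_⟩
  have h2 := h1 n hn
  show |nsq (FV.adj (a n) - FV.adj (b n))| < ε
  rw [← adj_sub, nsq_adj]
  exact h2

/-- products of bounded sequences -/
theorem Eqv.mul {N : Set ZFSet.{0}} {U : ZFSet.{0}} (hU : FreeUltra N U) {a b c d : ℕ → Alg}
    (h : Eqv U a b) (h' : Eqv U c d) (hc : ∃ C, ∀ n, OpLe C (c n)) (hb : ∃ C, ∀ n, OpLe C (b n)) :
    Eqv U (fun n => a n * c n) (fun n => b n * d n) := by
  obtain ⟨C, hC⟩ := hc
  obtain ⟨D, hD⟩ := hb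
  have e1 : Null U fun n => nsq ((a n - b n) * c n) := by
    refine Null.of_le (K := (C : ℝ) ^ 2) h fun n => ?_
    rw [abs_of_nonneg (nsq_nonneg _), abs_of_nonneg (nsq_nonneg _)]
    exact (hC n).right _
  have e2 : Null U fun n => nsq (b n * (c n - d n)) := by
    refine Null.of_le (K := (D : ℝ) ^ 2) h' fun n => ?_
    rw [abs_of_nonneg (nsq_nonneg _), abs_of_nonneg (nsq_nonneg _)]
    exact hD n _
  refine Null.of_le (K := 2) (Null.add hU e1 e2) fun n => ?_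
  have h1 := nsq_add_le ((a n - b n) * c n) (b n * (c n - d n))
  have h2 : (a n - b n) * c n + b n * (c n - d n) = a n * c n - b n * d n := by
    noncomm_ring
  rw [h2] at h1
  rw [abs_of_nonneg (nsq_nonneg _), abs_of_nonneg (add_nonneg (nsq_nonneg _) (nsq_nonneg _))]
  linarith

theorem bdd_mul {a b : ℕ → Alg} (ha : ∃ C, ∀ n, OpLe C (a n)) (hb : ∃ C, ∀ n, OpLe C (b n)) :
    ∃ C, ∀ n, OpLe C (a n * b n) := by
  obtain ⟨C, hC⟩ := ha
  obtain ⟨D, hD⟩ := hb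
  exact ⟨C * D, fun n => (hC n).mul (hD n)⟩

theorem bdd_adj {a : ℕ → Alg} (ha : ∃ C, ∀ n, OpLe C (a n)) :
    ∃ C, ∀ n, OpLe C (adj (a n)) := by
  obtain ⟨C, hC⟩ := ha
  exact ⟨C, fun n => (hC n).adj⟩

theorem bdd_one : ∃ C, ∀ _ : ℕ, OpLe C (1 : Alg) := ⟨1, fun _ => OpLe.one⟩

theorem Uni.one {N : Set ZFSet.{0}} (hN : IsZFC N) {U : ZFSet.{0}} (hU : FreeUltra N U) {k : ℕ}
    (hk : dec k = 1) : Uni N U (fun _ => k) where
  mem := graph_const hN k
  bdd := ⟨1, fun n => by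
    show OpLe 1 (dec k)
    rw [hk]; exact OpLe.one⟩
  left := Eqv.of_eq hU fun n => by
    show FV.adj (dec k) * dec k = 1
    rw [hk, adj_one, one_mul]
  right := Eqv.of_eq hU fun n => by
    show dec k * FV.adj (dec k) = 1
    rw [hk, adj_one, one_mul]

/-- the product of two unitaries of the ultrapower is a unitary -/
theorem unit_mul {N : Set ZFSet.{0}} {U : ZFSet.{0}} (hU : FreeUltra N U) {a b : ℕ → Alg}
    (hb : ∃ C, ∀ n, OpLe C (b n)) (ha : ∃ C, ∀ n, OpLe C (a n))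
    (h1 : Eqv U (fun n => adj (a n) * a n) (fun _ => 1))
    (h2 : Eqv U (fun n => adj (b n) * b n) (fun _ => 1)) :
    Eqv U (fun n => adj (a n * b n) * (a n * b n)) (fun _ => 1) := by
  have e1 : Eqv U (fun n => adj (b n) * (adj (a n) * a n)) (fun n => adj (b n) * 1) :=
    Eqv.mul hU (Eqv.refl hU _) h1 (bdd_mul (bdd_adj ha) ha) (bdd_adj hb)
  have e2 : Eqv U (fun n => adj (b n) * (adj (a n) * a n) * b n) (fun n => adj (b n) * 1 * b n) :=
    Eqv.mul hU e1 (Eqv.refl hU _) hb (bdd_mul (bdd_adj hb) bdd_one)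
  refine Eqv.trans hU (Eqv.of_eq hU fun n => ?_) (Eqv.trans hU e2
    (Eqv.trans hU (Eqv.of_eq hU fun n => ?_) h2))
  · show adj (a n * b n) * (a n * b n) = adj (b n) * (adj (a n) * a n) * b n
    rw [adj_mul]
    simp only [mul_assoc]
  · show adj (b n) * 1 * b n = adj (b n) * b n
    rw [mul_one]

theorem Uni.mul {N : Set ZFSet.{0}} (hN : IsZFC N) {U : ZFSet.{0}} (hU : FreeUltra N U)
    (hT : Tabs N) {x y : ℕ → ℕ} (hx : Uni N U x) (hy : Uni N U y) :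
    ∃ z, Uni N U z ∧ ∀ n, dec (z n) = dec (x n) * dec (y n) := by
  obtain ⟨f, hf, hTf⟩ := hT.mul
  refine ⟨fun n => f (x n) (y n), ⟨graph_comp₂ hN hTf hx.mem hy.mem, ?_, ?_, ?_⟩,
    fun n => hf _ _⟩
  · simp only [hf]
    exact bdd_mul hx.bdd hy.bdd
  · simp only [hf]
    exact unit_mul hU hy.bdd hx.bdd hx.left hy.left
  · simp only [hf]
    have hy' : Eqv U (fun n => FV.adj (FV.adj (dec (y n))) * FV.adj (dec (y n))) (fun _ => 1) := by
      simp only [adj_adj]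
      exact hy.right
    have hx' : Eqv U (fun n => FV.adj (FV.adj (dec (x n))) * FV.adj (dec (x n))) (fun _ => 1) := by
      simp only [adj_adj]
      exact hx.right
    have h := unit_mul hU (bdd_adj hx.bdd) (bdd_adj hy.bdd) hy' hx'
    simp only [← adj_mul, adj_adj] at h
    exact h

theorem Uni.adj {N : Set ZFSet.{0}} (hN : IsZFC N) {U : ZFSet.{0}} (hU : FreeUltra N U)
    (hT : Tabs N) {x : ℕ → ℕ} (hx : Uni N U x) :
    ∃ z, Uni N U z ∧ ∀ n, dec (z n) = adj (dec (x n)) := by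
  obtain ⟨f, hf, hTf⟩ := hT.adj
  have _ := hU
  refine ⟨fun n => f (x n), ⟨graph_comp₁ hN hTf hx.mem, ?_, ?_, ?_⟩, fun n => hf _⟩
  · simp only [hf]
    exact bdd_adj hx.bdd
  · simp only [hf, adj_adj]
    exact hx.right
  · simp only [hf, adj_adj]
    exact hx.left

theorem SeqHom.uni {N : Set ZFSet.{0}} {U π : ZFSet.{0}} (hπ : SeqHom N U π) {a s : ℕ → ℕ}
    (h : ZFSet.pair (graph a) (graph s) ∈ π) : Uni N U a ∧ Uni N U s := by
  obtain ⟨x, y, h1, h2, h3⟩ := hπ.sub _ h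
  have h4 := ZFSet.pair_inj.mp h1
  rw [graph_inj h4.1, graph_inj h4.2]
  exact ⟨h2, h3⟩

/-- there are sequences `e₀, e` with `π(e₀) = e`, both representing the identity -/
theorem SeqHom.exists_one {N : Set ZFSet.{0}} (hN : IsZFC N) {U π : ZFSet.{0}}
    (hU : FreeUltra N U) (hπ : SeqHom N U π) :
    ∃ e₀ e : ℕ → ℕ, ZFSet.pair (graph e₀) (graph e) ∈ π ∧ (∀ n, dec (e₀ n) = 1) ∧
      Eqv U (fun n => dec (e n)) (fun _ => 1) := by
  obtain ⟨k, hk⟩ := exists_onec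
  obtain ⟨e, he⟩ := hπ.tot _ (Uni.one hN hU hk)
  refine ⟨_, e, he, fun _ => hk, ?_⟩
  have hue := (hπ.uni he).2
  have h1 : Eqv U (fun n => dec (e n) * dec (e n)) (fun n => dec (e n)) :=
    hπ.mul _ _ _ _ _ _ he he he (Eqv.of_eq hU fun n => by
      show dec k * dec k = dec k
      rw [hk, one_mul])
  have h2 : Eqv U (fun n => FV.adj (dec (e n)) * (dec (e n) * dec (e n)))
      (fun n => FV.adj (dec (e n)) * dec (e n)) :=
    Eqv.mul hU (Eqv.refl hU _) h1 (bdd_mul hue.bdd hue.bdd) (bdd_adj hue.bdd)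
  have h3 : Eqv U (fun n => FV.adj (dec (e n)) * dec (e n) * dec (e n))
      (fun n => 1 * dec (e n)) :=
    Eqv.mul hU hue.left (Eqv.refl hU _) hue.bdd bdd_one
  simp only [one_mul] at h3
  simp only [← mul_assoc] at h2
  exact Eqv.trans hU (Eqv.symm h3) (Eqv.trans hU h2 hue.left)

/-- the images of the inverses -/
theorem SeqHom.exists_inv {N : Set ZFSet.{0}} (hN : IsZFC N) {U π : ZFSet.{0}}
    (hU : FreeUltra N U) (hT : Tabs N) (hπ : SeqHom N U π) {a s : ℕ → ℕ}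
    (h : ZFSet.pair (graph a) (graph s) ∈ π) :
    ∃ a' s' : ℕ → ℕ, ZFSet.pair (graph a') (graph s') ∈ π ∧
      (∀ n, dec (a' n) = FV.adj (dec (a n))) ∧
      Eqv U (fun n => dec (s' n)) (fun n => FV.adj (dec (s n))) := by
  obtain ⟨hua, hus⟩ := hπ.uni h
  obtain ⟨a', ha', hda'⟩ := Uni.adj hN hU hT hua
  obtain ⟨s', hs'⟩ := hπ.tot _ ha'
  refine ⟨a', s', hs', hda', ?_⟩
  have hus' := (hπ.uni hs').2
  obtain ⟨e₀, e, he, he0, he1⟩ := hπ.exists_one hN hU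
  have h1 : Eqv U (fun n => dec (s n) * dec (s' n)) (fun n => dec (e n)) := by
    refine hπ.mul _ _ _ _ _ _ h hs' he ?_
    simp only [hda', he0]
    exact hua.right
  have h2 : Eqv U (fun n => dec (s n) * dec (s' n)) (fun _ => 1) := Eqv.trans hU h1 he1
  have h3 : Eqv U (fun n => FV.adj (dec (s n)) * (dec (s n) * dec (s' n)))
      (fun n => FV.adj (dec (s n)) * 1) :=
    Eqv.mul hU (Eqv.refl hU _) h2 (bdd_mul hus.bdd hus'.bdd) (bdd_adj hus.bdd)
  have h4 : Eqv U (fun n => FV.adj (dec (s n)) * dec (s n) * dec (s' n))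
      (fun n => 1 * dec (s' n)) :=
    Eqv.mul hU hus.left (Eqv.refl hU _) hus'.bdd bdd_one
  simp only [mul_one, ← mul_assoc] at h3
  simp only [one_mul] at h4
  exact Eqv.trans hU (Eqv.symm h4) h3

/-- the images of the products -/
theorem SeqHom.exists_prod {N : Set ZFSet.{0}} (hN : IsZFC N) {U π : ZFSet.{0}}
    (hU : FreeUltra N U) (hT : Tabs N) (hπ : SeqHom N U π) {a s b t : ℕ → ℕ}
    (h1 : ZFSet.pair (graph a) (graph s) ∈ π) (h2 : ZFSet.pair (graph b) (graph t) ∈ π) :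
    ∃ z w : ℕ → ℕ, ZFSet.pair (graph z) (graph w) ∈ π ∧
      (∀ n, dec (z n) = dec (a n) * dec (b n)) ∧
      Eqv U (fun n => dec (w n)) (fun n => dec (s n) * dec (t n)) := by
  obtain ⟨z, hz, hdz⟩ := Uni.mul hN hU hT (hπ.uni h1).1 (hπ.uni h2).1
  obtain ⟨w, hw⟩ := hπ.tot _ hz
  refine ⟨z, w, hw, hdz, Eqv.symm (hπ.mul _ _ _ _ _ _ h1 h2 hw (Eqv.of_eq hU fun n => ?_))⟩
  exact (hdz n).symm

/-- the image of the commutator -/
theorem SeqHom.exists_cmt {N : Set ZFSet.{0}} (hN : IsZFC N) {U π : ZFSet.{0}}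
    (hU : FreeUltra N U) (hT : Tabs N) (hπ : SeqHom N U π) {a s b t : ℕ → ℕ}
    (h1 : ZFSet.pair (graph a) (graph s) ∈ π) (h2 : ZFSet.pair (graph b) (graph t) ∈ π) :
    ∃ z w : ℕ → ℕ, ZFSet.pair (graph z) (graph w) ∈ π ∧
      (∀ n, dec (z n) = cmt (dec (a n)) (dec (b n))) ∧
      Eqv U (fun n => dec (w n)) (fun n => cmt (dec (s n)) (dec (t n))) := by
  obtain ⟨a', s', h3, ha', hs'⟩ := hπ.exists_inv hN hU hT h1
  obtain ⟨b', t', h4, hb', ht'⟩ := hπ.exists_inv hN hU hT h2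
  obtain ⟨z1, w1, h5, hz1, hw1⟩ := hπ.exists_prod hN hU hT h1 h2
  obtain ⟨z2, w2, h6, hz2, hw2⟩ := hπ.exists_prod hN hU hT h5 h3
  obtain ⟨z3, w3, h7, hz3, hw3⟩ := hπ.exists_prod hN hU hT h6 h4
  have bs := (hπ.uni h1).2.bdd
  have bt := (hπ.uni h2).2.bdd
  have bs' := (hπ.uni h3).2.bdd
  have bt' := (hπ.uni h4).2.bdd
  refine ⟨z3, w3, h7, fun n => ?_, ?_⟩
  · rw [hz3, hz2, hz1, ha', hb']
    rfl
  · have e2 : Eqv U (fun n => dec (w1 n) * dec (s' n))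
        (fun n => dec (s n) * dec (t n) * FV.adj (dec (s n))) :=
      Eqv.mul hU hw1 hs' bs' (bdd_mul bs bt)
    have e3 : Eqv U (fun n => dec (w2 n) * dec (t' n))
        (fun n => dec (s n) * dec (t n) * FV.adj (dec (s n)) * FV.adj (dec (t n))) :=
      Eqv.mul hU (Eqv.trans hU hw2 e2) ht' bt' (bdd_mul (bdd_mul bs bt) (bdd_adj bs))
    exact Eqv.trans hU hw3 e3

theorem SeqHom.comm_one {N : Set ZFSet.{0}} (hN : IsZFC N) {U π : ZFSet.{0}}
    (hU : FreeUltra N U) (hT : Tabs N) (hπ : SeqHom N U π) {a s b t : ℕ → ℕ}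
    (h1 : ZFSet.pair (graph a) (graph s) ∈ π) (h2 : ZFSet.pair (graph b) (graph t) ∈ π)
    (h : Eqv U (fun n => cmt (dec (a n)) (dec (b n))) (fun _ => 1)) :
    ∃ z ∈ U, ∀ n, nat n ∈ z → nsq (cmt (dec (s n)) (dec (t n)) - 1) < 1 / 2 := by
  obtain ⟨z, w, h3, hz, hw⟩ := hπ.exists_cmt hN hU hT h1 h2
  obtain ⟨e₀, e, he, he0, he1⟩ := hπ.exists_one hN hU
  have bw := (hπ.uni h3).2.bdd
  have be := (hπ.uni he).2.bdd
  have e1 : Eqv U (fun n => dec (w n) * dec (e n)) (fun n => dec (e n)) := by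
    refine hπ.mul _ _ _ _ _ _ h3 he he ?_
    simp only [he0, hz, mul_one]
    exact h
  have e2 : Eqv U (fun n => dec (w n) * dec (e n)) (fun n => dec (w n) * 1) :=
    Eqv.mul hU (Eqv.refl hU _) he1 be bw
  simp only [mul_one] at e2
  have e3 : Eqv U (fun n => dec (w n)) (fun _ => 1) :=
    Eqv.trans hU (Eqv.symm e2) (Eqv.trans hU e1 he1)
  have e4 : Eqv U (fun n => cmt (dec (s n)) (dec (t n))) (fun _ => 1) :=
    Eqv.trans hU (Eqv.symm hw) e3
  obtain ⟨y, hy, h5⟩ := e4 (1 / 2) (by norm_num)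
  exact ⟨y, hy, fun n hn => lt_of_le_of_lt (le_abs_self _) (h5 n hn)⟩

theorem SeqHom.comm_ne {N : Set ZFSet.{0}} (hN : IsZFC N) {U π : ZFSet.{0}}
    (hU : FreeUltra N U) (hT : Tabs N) (hπ : SeqHom N U π) {a s b t : ℕ → ℕ}
    (h1 : ZFSet.pair (graph a) (graph s) ∈ π) (h2 : ZFSet.pair (graph b) (graph t) ∈ π)
    (h : ¬ Eqv U (fun n => cmt (dec (a n)) (dec (b n))) (fun _ => 1)) :
    ∃ z ∈ U, ∀ n, nat n ∈ z → ¬ nsq (cmt (dec (s n)) (dec (t n)) - 1) < 1 / 2 := by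
  obtain ⟨z, w, h3, hz, hw⟩ := hπ.exists_cmt hN hU hT h1 h2
  have hnz : ¬ Eqv U (fun n => dec (z n)) (fun _ => 1) := by
    simp only [hz]
    exact h
  have htr := hπ.zero _ _ h3 hnz
  have huw := (hπ.uni h3).2
  obtain ⟨y1, hy1, k1⟩ := htr (1 / 10) (by norm_num)
  obtain ⟨y2, hy2, k2⟩ := huw.left (1 / 100) (by norm_num)
  obtain ⟨y3, hy3, k3⟩ := hw (1 / 10) (by norm_num)
  refine ⟨y1 ∩ y2 ∩ y3, hU.inter _ (hU.inter _ hy1 _ hy2) _ hy3, fun n hn hlt => ?_⟩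
  rw [ZFSet.mem_inter, ZFSet.mem_inter] at hn
  have l1 := k1 n hn.1.1
  have l2 := k2 n hn.1.2
  have l3 := k3 n hn.2
  simp only at l1 l2 l3
  set W : Alg := dec (w n) with hW
  set Q : Alg := cmt (dec (s n)) (dec (t n)) with hQ
  rw [abs_of_nonneg (nsq_nonneg _)] at l2 l3
  rw [abs_of_nonneg (norm_nonneg _)] at l1
  -- the norm of `W`
  have m1 := norm_tr_le (FV.adj W * W - 1)
  have m2 : tr (FV.adj W * W - 1) = (nsq W : ℂ) - 1 := by
    have m3 := tr_add (FV.adj W * W - 1) 1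
    rw [sub_add_cancel, tr_one, ← nsq_eq_tr] at m3
    rw [m3]
    ring
  have m4 : ‖((nsq W : ℝ) : ℂ) - 1‖ = |nsq W - 1| := by
    rw [← Complex.ofReal_one, ← Complex.ofReal_sub, Complex.norm_real, Real.norm_eq_abs]
  rw [m2, m4] at m1
  have m5 : |nsq W - 1| < 1 / 10 := by
    by_contra hcon
    push Not at hcon
    nlinarith [abs_nonneg (nsq W - 1)]
  have m6 := (abs_lt.mp m5).1
  have m7 := nsq_sub_one W
  have m8 : (tr W).re < 1 / 10 := lt_of_le_of_lt (Complex.re_le_norm _) l1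
  have m9 := nsq_add_le (W - Q) (Q - 1)
  rw [sub_add_sub_cancel] at m9
  linarith

end Pool.Agent.Helper89.FV
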